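import Mathlib

/-!
# The canonical nonclassical Hopf-Galois structure and its associated order

Definitions for MP_46c6cb_nt: for a finite Galois extension `L/K` with group `G`, the group
algebra `L[N]` with `N = lambda(G)` inside `Perm(G)`, the action of `G` on it, the algebra
`H_lambda = L[N]^G`, its action on `L`, orders in a `K`-algebra and the associated order.
-/

namespace Pool.Agent.J6H59.HopfOrder

/-- The left regular representation `lambda : G → Perm(G)`, `lambda(g)(h) = g h`. -/
def lam (G : Type*) [Group G] : G →* Equiv.Perm G := MulAction.toPermHom G G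

/-- The subgroup `N = lambda(G)` of `Perm(G)`. -/
def N (G : Type*) [Group G] : Subgroup (Equiv.Perm G) := (lam G).range

/-- The group `N = lambda(G)` as a type. -/
def NT (G : Type*) [Group G] : Type _ := N G

instance (G : Type*) [Group G] : Group (NT G) := inferInstanceAs (Group (N G))

/-- Conjugation `n ↦ lambda(g) n lambda(g)⁻¹` on `N = lambda(G)`. -/
def conj {G : Type*} [Group G] (g : G) (n : NT G) : NT G :=
  ⟨lam G g * n.1 * (lam G g)⁻¹,
    (N G).mul_mem ((N G).mul_mem ⟨g, rfl⟩ n.2) ((N G).inv_mem ⟨g, rfl⟩)⟩

/-- The element `n⁻¹(1)` of `G`, for `n` in `N = lambda(G)`. -/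
def ev {G : Type*} [Group G] (n : NT G) : G := (n.1)⁻¹ 1

section
variable (K L : Type*) [Field K] [Field L] [Algebra K L]

/-- The group `G = Gal(L/K)` of `K`-algebra automorphisms of `L`. -/
abbrev Gal := L ≃ₐ[K] L

/-- The group algebra `L[N]`, `N = lambda(G)`. -/
abbrev LN := MonoidAlgebra L (NT (Gal K L))

variable {K L}

/-- The action of `g : G` on `L[N]`:
`g · (∑ c_n n) = ∑ g(c_n) lambda(g) n lambda(g)⁻¹`. -/
noncomputable def twist (g : Gal K L) (h : LN K L) : LN K L :=
  h.coeff.sum fun n c => MonoidAlgebra.single (conj g n) (g c)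

/-- The action of `L[N]` on `L`: `(∑ c_n n) · x = ∑ c_n (n⁻¹(1_G))(x)`. -/
noncomputable def act (h : LN K L) (x : L) : L :=
  h.coeff.sum fun n c => c * (ev n) x

end

section
variable {K A : Type*} [Field K] [Ring A] [Algebra K A]

/-- `IsOrder O H S`, for a subring `O` of a field `K` and subrings `S` and `H` of a `K`-algebra
`A`, where `H` is meant to be a `K`-subalgebra: `S` is an `O`-order of `H`. That is, `S ⊆ H`, `S`
contains `O · 1`, `S` is a finitely generated `O`-module (`S` has a finite subset `t` such that
every element of `S` is a combination of elements of `t` with coefficients in `O`), and `S` spans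
`H` over `K`. -/
def IsOrder (O : Subring K) (H S : Subring A) : Prop :=
  S ≤ H ∧ (∀ c ∈ O, algebraMap K A c ∈ S) ∧
    (∃ t : Finset A, (∀ a ∈ t, a ∈ S) ∧
      ∀ s ∈ S, ∃ f : A → K, (∀ a, f a ∈ O) ∧ s = ∑ a ∈ t, f a • a) ∧
    ∀ h ∈ H, h ∈ Submodule.span K (S : Set A)

/-- `S` is a maximal `O`-order of `H`: it is an order which is not properly contained in any
other order. -/
def IsMaximalOrder (O : Subring K) (H S : Subring A) : Prop :=
  IsOrder O H S ∧ ∀ T : Subring A, IsOrder O H T → S ≤ T → T = S

end

/-! ### Basic facts on the twisted action and on the action on `L` -/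

section
variable {G : Type*} [Group G]

/-- The element `lambda(g)` of `N`. -/
def toN (g : G) : NT G := ⟨lam G g, g, rfl⟩

theorem lam_apply (g h : G) : lam G g h = g * h := rfl

theorem ev_toN (g : G) : ev (toN g) = g⁻¹ := by
  have h : (lam G g)⁻¹ = lam G g⁻¹ := (map_inv (lam G) g).symm
  change (lam G g)⁻¹ 1 = g⁻¹
  rw [h, lam_apply, mul_one]

theorem exists_toN (n : NT G) : ∃ g : G, n = toN g := by
  obtain ⟨n, g, rfl⟩ := n
  exact ⟨g, rfl⟩

theorem toN_mul (g h : G) : toN (g * h) = toN g * toN h :=
  Subtype.ext (map_mul (lam G) g h)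

theorem toN_one : toN (1 : G) = 1 := Subtype.ext (map_one (lam G))

theorem conj_toN (g h : G) : conj g (toN h) = toN (g * h * g⁻¹) := by
  apply Subtype.ext
  change lam G g * lam G h * (lam G g)⁻¹ = lam G (g * h * g⁻¹)
  rw [map_mul, map_mul, map_inv]

theorem ev_mul (n m : NT G) : ev (n * m) = ev m * ev n := by
  obtain ⟨g, rfl⟩ := exists_toN n
  obtain ⟨h, rfl⟩ := exists_toN m
  rw [← toN_mul, ev_toN, ev_toN, ev_toN, mul_inv_rev]

theorem ev_one : ev (1 : NT G) = 1 := by
  rw [← toN_one, ev_toN, inv_one]

theorem ev_conj (g : G) (n : NT G) : ev (conj g n) = g * ev n * g⁻¹ := by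
  obtain ⟨h, rfl⟩ := exists_toN n
  rw [conj_toN, ev_toN, ev_toN]; group

theorem conj_mul (g : G) (n m : NT G) : conj g (n * m) = conj g n * conj g m := by
  obtain ⟨a, rfl⟩ := exists_toN n
  obtain ⟨b, rfl⟩ := exists_toN m
  rw [← toN_mul, conj_toN, conj_toN, conj_toN, ← toN_mul]
  congr 1; group

theorem conj_one (g : G) : conj g (1 : NT G) = 1 := by
  rw [← toN_one, conj_toN]; congr 1; group

theorem conj_conj (g h : G) (n : NT G) : conj g (conj h n) = conj (g * h) n := by
  obtain ⟨a, rfl⟩ := exists_toN n
  rw [conj_toN, conj_toN, conj_toN]; congr 1; group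

theorem ev_injective : Function.Injective (ev (G := G)) := by
  intro n m h
  obtain ⟨a, rfl⟩ := exists_toN n
  obtain ⟨b, rfl⟩ := exists_toN m
  rw [ev_toN, ev_toN, inv_inj] at h
  rw [h]

theorem conj_injective (g : G) : Function.Injective (conj (G := G) g) := by
  intro n m h
  have := congrArg ev h
  rw [ev_conj, ev_conj] at this
  exact ev_injective (by simpa using this)

end

section
variable {K L : Type*} [Field K] [Field L] [Algebra K L]

theorem twist_single (g : Gal K L) (n : NT (Gal K L)) (c : L) :
    twist g (MonoidAlgebra.single n c) = MonoidAlgebra.single (conj g n) (g c) := by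
  unfold twist
  rw [MonoidAlgebra.coeff_single, Finsupp.sum_single_index]
  rw [map_zero, MonoidAlgebra.single_zero]

theorem twist_zero (g : Gal K L) : twist g (0 : LN K L) = 0 := by
  unfold twist
  rw [MonoidAlgebra.coeff_zero, Finsupp.sum_zero_index]

theorem twist_add (g : Gal K L) (h k : LN K L) : twist g (h + k) = twist g h + twist g k := by
  unfold twist
  rw [MonoidAlgebra.coeff_add]
  apply Finsupp.sum_add_index'
  · intro n; rw [map_zero, MonoidAlgebra.single_zero]
  · intro n a b; rw [map_add, MonoidAlgebra.single_add]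

theorem act_single (n : NT (Gal K L)) (c x : L) :
    act (MonoidAlgebra.single n c : LN K L) x = c * (ev n) x := by
  unfold act
  rw [MonoidAlgebra.coeff_single, Finsupp.sum_single_index]
  rw [zero_mul]

theorem act_zero_left (x : L) : act (0 : LN K L) x = 0 := by
  unfold act
  rw [MonoidAlgebra.coeff_zero, Finsupp.sum_zero_index]

theorem act_add_left (h k : LN K L) (x : L) : act (h + k) x = act h x + act k x := by
  unfold act
  rw [MonoidAlgebra.coeff_add]
  apply Finsupp.sum_add_index'
  · intro n; rw [zero_mul]
  · intro n a b; rw [add_mul]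

theorem act_add_right (h : LN K L) (x y : L) : act h (x + y) = act h x + act h y := by
  unfold act
  rw [← Finsupp.sum_add]
  apply Finsupp.sum_congr
  intro n _
  rw [map_add, mul_add]

theorem act_smul_right (h : LN K L) (c : K) (x : L) : act h (c • x) = c • act h x := by
  unfold act
  rw [Finsupp.smul_sum]
  apply Finsupp.sum_congr
  intro n _
  rw [map_smul, mul_smul_comm]

/-- Induction over elements of `L[N]`. -/
theorem ind {P : LN K L → Prop} (h : LN K L) (h0 : P 0)
    (hs : ∀ n c, P (MonoidAlgebra.single n c)) (ha : ∀ x y, P x → P y → P (x + y)) : P h := by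
  rw [← MonoidAlgebra.sum_coeff_single h]
  exact Finset.sum_induction _ P (fun a b => ha a b) h0 (fun n _ => hs n _)

theorem act_smul_left (c : L) (h : LN K L) (x : L) : act (c • h) x = c * act h x := by
  refine ind (P := fun h => act (c • h) x = c * act h x) h ?_ ?_ ?_
  · simp only [smul_zero, act_zero_left, mul_zero]
  · intro n d
    rw [MonoidAlgebra.smul_single, act_single, act_single, smul_eq_mul, mul_assoc]
  · intro a b ha hb
    rw [smul_add, act_add_left, act_add_left, ha, hb, mul_add]

/-- `g (k · x) = (g · k) · (g x)`. -/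
theorem map_act (g : Gal K L) (k : LN K L) (x : L) : g (act k x) = act (twist g k) (g x) := by
  refine ind (P := fun k => g (act k x) = act (twist g k) (g x)) k ?_ ?_ ?_
  · rw [twist_zero, act_zero_left, act_zero_left, map_zero]
  · intro n c
    rw [twist_single, act_single, act_single, map_mul, ev_conj, AlgEquiv.mul_apply,
      AlgEquiv.mul_apply]
    congr 3
    exact (AlgEquiv.symm_apply_apply g x).symm
  · intro a b ha hb
    rw [twist_add, act_add_left, act_add_left, map_add, ha, hb]

theorem act_single_mul (n : NT (Gal K L)) (c : L) (k : LN K L) (x : L) :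
    act (MonoidAlgebra.single n c * k) x = c * act k (ev n x) := by
  refine ind (P := fun k => act (MonoidAlgebra.single n c * k) x = c * act k (ev n x)) k ?_ ?_ ?_
  · rw [mul_zero, act_zero_left, act_zero_left, mul_zero]
  · intro m d
    rw [MonoidAlgebra.single_mul_single, act_single, act_single, ev_mul, AlgEquiv.mul_apply,
      mul_assoc]
  · intro a b ha hb
    rw [mul_add, act_add_left, act_add_left, ha, hb, mul_add]

/-- On `G`-invariant elements the action is multiplicative. -/
theorem act_mul (h k : LN K L) (hk : ∀ g, twist g k = k) (x : L) :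
    act (h * k) x = act h (act k x) := by
  refine ind (P := fun h => act (h * k) x = act h (act k x)) h ?_ ?_ ?_
  · rw [zero_mul, act_zero_left, act_zero_left]
  · intro n c
    rw [act_single_mul, act_single, map_act, hk]
  · intro a b ha hb
    rw [add_mul, act_add_left, act_add_left, ha, hb]

theorem twist_mul (g : Gal K L) (h k : LN K L) : twist g (h * k) = twist g h * twist g k := by
  refine ind (P := fun h => twist g (h * k) = twist g h * twist g k) h ?_ ?_ ?_
  · rw [zero_mul, twist_zero, zero_mul]
  · intro n c
    refine ind (P := fun k => twist g (MonoidAlgebra.single n c * k) =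
      twist g (MonoidAlgebra.single n c) * twist g k) k ?_ ?_ ?_
    · rw [mul_zero, twist_zero, mul_zero]
    · intro m d
      rw [MonoidAlgebra.single_mul_single, twist_single, twist_single, twist_single,
        MonoidAlgebra.single_mul_single, conj_mul, map_mul]
    · intro a b ha hb
      rw [mul_add, twist_add, twist_add, ha, hb, mul_add]
  · intro a b ha hb
    rw [add_mul, twist_add, twist_add, ha, hb, add_mul]

theorem twist_twist (g h : Gal K L) (k : LN K L) : twist g (twist h k) = twist (g * h) k := by
  refine ind (P := fun k => twist g (twist h k) = twist (g * h) k) k ?_ ?_ ?_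
  · simp only [twist_zero]
  · intro n c
    simp only [twist_single, conj_conj, AlgEquiv.mul_apply]
  · intro a b ha hb
    simp only [twist_add, ha, hb]

theorem algebraMap_eq_single (c : K) :
    algebraMap K (LN K L) c = MonoidAlgebra.single 1 (algebraMap K L c) := by
  rw [MonoidAlgebra.coe_algebraMap]
  rfl

theorem twist_algebraMap (g : Gal K L) (c : K) :
    twist g (algebraMap K (LN K L) c) = algebraMap K (LN K L) c := by
  rw [algebraMap_eq_single, twist_single, conj_one, AlgEquiv.commutes]

theorem act_algebraMap (c : K) (x : L) : act (algebraMap K (LN K L) c) x = c • x := by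
  rw [algebraMap_eq_single, act_single, ev_one, AlgEquiv.one_apply, Algebra.smul_def]

theorem algebraMap_mem_invariants (c : K) (g : Gal K L) :
    twist g (algebraMap K (LN K L) c) = algebraMap K (LN K L) c := twist_algebraMap g c

end

section
variable (K L : Type*) [Field K] [Field L] [Algebra K L]

theorem twist_one (g : Gal K L) : twist g (1 : LN K L) = 1 := by
  have := twist_algebraMap (K := K) (L := L) g 1
  rwa [map_one] at this

theorem twist_neg (g : Gal K L) (h : LN K L) (hh : twist g h = h) : twist g (-h) = -h := by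
  have h1 : twist g (-h) + twist g h = 0 := by
    rw [← twist_add, neg_add_cancel, twist_zero]
  rw [hh] at h1
  exact eq_neg_of_add_eq_zero_left h1

/-- The subring (it is a `K`-subalgebra) `H_lambda = L[N]^G` of `L[N]` of the canonical
nonclassical structure. -/
noncomputable def Hlam : Subring (LN K L) where
  carrier := {h | ∀ g : Gal K L, twist g h = h}
  mul_mem' {a b} ha hb g := by rw [twist_mul, ha g, hb g]
  one_mem' g := twist_one K L g
  add_mem' {a b} ha hb g := by rw [twist_add, ha g, hb g]
  zero_mem' g := twist_zero g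
  neg_mem' {a} ha g := twist_neg K L g a (ha g)

end

/-- The ring of integers of a field `K` over `ℤ_p`: the integral closure of `ℤ_p` in `K`. -/
noncomputable def ringInt (p : ℕ) [Fact p.Prime] (K : Type*) [Field K] [Algebra ℤ_[p] K] : Subring K :=
  (integralClosure ℤ_[p] K).toSubring

section
variable (p : ℕ) [Fact p.Prime] (K L : Type*) [Field K] [Field L] [Algebra K L]
  [Algebra ℤ_[p] L]

/-- The associated order `{h ∈ H_lambda | h · O_L ⊆ O_L}` of `O_L` in `H_lambda`, as a subring
of `L[N]`. -/
noncomputable def assocOrder : Subring (LN K L) where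
  carrier := {h | h ∈ Hlam K L ∧ ∀ x ∈ ringInt p L, act h x ∈ ringInt p L}
  mul_mem' {a b} ha hb := by
    refine ⟨(Hlam K L).mul_mem ha.1 hb.1, fun x hx => ?_⟩
    rw [act_mul _ _ hb.1]
    exact ha.2 _ (hb.2 _ hx)
  one_mem' := by
    refine ⟨(Hlam K L).one_mem, fun x hx => ?_⟩
    have := act_algebraMap (K := K) (L := L) 1 x
    rw [map_one, one_smul] at this
    rwa [this]
  add_mem' {a b} ha hb := by
    refine ⟨(Hlam K L).add_mem ha.1 hb.1, fun x hx => ?_⟩
    rw [act_add_left]
    exact add_mem (ha.2 _ hx) (hb.2 _ hx)
  zero_mem' := by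
    refine ⟨(Hlam K L).zero_mem, fun x hx => ?_⟩
    rw [act_zero_left]
    exact zero_mem _
  neg_mem' {a} ha := by
    refine ⟨(Hlam K L).neg_mem ha.1, fun x hx => ?_⟩
    have h1 : act (-a) x + act a x = 0 := by
      rw [← act_add_left, neg_add_cancel, act_zero_left]
    rw [eq_neg_of_add_eq_zero_left h1]
    exact neg_mem (ha.2 _ hx)

end

end Pool.Agent.J6H59.HopfOrder
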