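import Pool.Agent.J6H59.HopfOrder.Defs

/-!
# The associated order is maximal when `p` does not divide `[L:K]`
-/

namespace Pool.Agent.J6H59.HopfOrder

open Polynomial

section General

/-- The trace of an endomorphism which is integral over `A` is integral over `A`. -/
theorem isIntegral_trace_end {A K V : Type*} [CommRing A] [Field K] [Algebra A K]
    [AddCommGroup V] [Module K V] [FiniteDimensional K V]
    {f : Module.End K V} {q : A[X]} (hq : q.Monic)
    (hf : aeval f (q.map (algebraMap A K)) = 0) : IsIntegral A (LinearMap.trace K V f) := by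
  classical
  let Ω := AlgebraicClosure K
  let b := Module.finBasis K V
  let M := LinearMap.toMatrix b b f
  have hM : aeval M (q.map (algebraMap A K)) = 0 := by
    have h3 := Polynomial.aeval_algHom_apply (LinearMap.toMatrixAlgEquiv b).toAlgHom f
      (q.map (algebraMap A K))
    rw [hf, map_zero] at h3
    exact h3
  let MΩ : Matrix (Fin (Module.finrank K V)) (Fin (Module.finrank K V)) Ω :=
    M.map (algebraMap K Ω)
  have hMΩ : aeval MΩ ((q.map (algebraMap A K)).map (algebraMap K Ω)) = 0 := by
    rw [aeval_map_algebraMap]
    have h3 := Polynomial.aeval_algHom_apply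
      ((Algebra.ofId K Ω).mapMatrix (m := Fin (Module.finrank K V))) M
      (q.map (algebraMap A K))
    rw [hM, map_zero] at h3
    exact h3
  have htr : algebraMap K Ω (LinearMap.trace K V f) = (MΩ.charpoly.roots).sum := by
    rw [LinearMap.trace_eq_matrix_trace K b f]
    rw [← Matrix.trace_eq_sum_roots_charpoly_of_splits (IsAlgClosed.splits _)]
    simp [MΩ, M, Matrix.trace]
  have hroot : ∀ μ ∈ MΩ.charpoly.roots, IsIntegral A μ := by
    intro μ hμ
    have h1 : μ ∈ spectrum Ω MΩ := by
      rw [Matrix.mem_spectrum_iff_isRoot_charpoly]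
      exact isRoot_of_mem_roots hμ
    have h2 := spectrum.subset_polynomial_aeval MΩ ((q.map (algebraMap A K)).map (algebraMap K Ω))
      ⟨μ, h1, rfl⟩
    rw [hMΩ] at h2
    have hne : Nonempty (Fin (Module.finrank K V)) := by
      by_contra hcon
      rw [not_nonempty_iff] at hcon
      have : MΩ = 0 := Subsingleton.elim _ _
      have hs : Subsingleton (Matrix (Fin (Module.finrank K V)) (Fin (Module.finrank K V)) Ω) :=
        inferInstance
      rw [spectrum.of_subsingleton (R := Ω) MΩ] at h1
      exact h1
    have h4 : ((q.map (algebraMap A K)).map (algebraMap K Ω)).eval μ = 0 := by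
      rw [spectrum.zero_eq] at h2
      exact h2
    refine ⟨q, hq, ?_⟩
    rw [Polynomial.map_map, ← IsScalarTower.algebraMap_eq, eval_map] at h4
    exact h4
  have hsum : IsIntegral A (MΩ.charpoly.roots).sum := IsIntegral.multiset_sum hroot
  rw [← htr] at hsum
  exact (isIntegral_algebraMap_iff (algebraMap K Ω).injective).mp hsum

/-- The trace dual of the trace dual of the ring of integers is the ring of integers. -/
theorem integral_of_trace_dual {A K L : Type*} [CommRing A] [IsDedekindDomain A] [Field K]
    [Field L] [Algebra A K] [IsFractionRing A K] [Algebra K L] [Algebra A L] [IsScalarTower A K L]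
    [FiniteDimensional K L] [Algebra.IsSeparable K L] (l : L)
    (h : ∀ b : L, (∀ y : L, IsIntegral A y → IsIntegral A (Algebra.trace K L (b * y))) →
      IsIntegral A (Algebra.trace K L (b * l))) : IsIntegral A l := by
  let B := integralClosure A L
  have : IsDedekindDomain B := integralClosure.isDedekindDomain A K L
  have : IsFractionRing B L := integralClosure.isFractionRing_of_finite_extension K L
  have h1 : l ∈ FractionalIdeal.dual A K (FractionalIdeal.dual A K
      (1 : FractionalIdeal (nonZeroDivisors B) L)) := by
    have hone : (1 : FractionalIdeal (nonZeroDivisors B) L) ≠ 0 := one_ne_zero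
    rw [FractionalIdeal.mem_dual (FractionalIdeal.dual_ne_zero A K hone)]
    intro b hb
    rw [FractionalIdeal.mem_dual hone] at hb
    rw [Algebra.traceForm_apply, mul_comm]
    apply IsIntegrallyClosed.isIntegral_iff.mp
    apply h
    intro y hy
    apply IsIntegrallyClosed.isIntegral_iff.mpr
    have := hb y ((FractionalIdeal.mem_one_iff _).mpr ⟨⟨y, hy⟩, rfl⟩)
    rw [Algebra.traceForm_apply] at this
    exact this
  rw [FractionalIdeal.dual_dual, FractionalIdeal.mem_one_iff] at h1
  obtain ⟨x, rfl⟩ := h1
  exact x.2

end General

section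
variable {K L : Type*} [Field K] [Field L] [Algebra K L]

/-- The `K`-linear endomorphism of `L` given by an element of `L[N]`. -/
noncomputable def actLin (h : LN K L) : Module.End K L where
  toFun := act h
  map_add' := act_add_right h
  map_smul' := act_smul_right h

@[simp] theorem actLin_apply (h : LN K L) (x : L) : actLin h x = act h x := rfl

/-- `H_lambda` as a `K`-subalgebra. -/
noncomputable def HlamA (K L : Type*) [Field K] [Field L] [Algebra K L] :
    Subalgebra K (LN K L) where
  carrier := {h | ∀ g : Gal K L, twist g h = h}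
  mul_mem' {a b} ha hb g := by rw [twist_mul, ha g, hb g]
  add_mem' {a b} ha hb g := by rw [twist_add, ha g, hb g]
  algebraMap_mem' c g := twist_algebraMap g c

/-- The action of `H_lambda` as an algebra homomorphism. -/
noncomputable def actHom : HlamA K L →ₐ[K] Module.End K L where
  toFun h := actLin (h : LN K L)
  map_one' := by
    ext x
    have := act_algebraMap (K := K) (L := L) 1 x
    rw [map_one, one_smul] at this
    exact this
  map_mul' a b := by
    ext x
    exact act_mul _ _ b.2 x
  map_zero' := by
    ext x
    exact act_zero_left (K := K) x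
  map_add' a b := by
    ext x
    exact act_add_left _ _ x
  commutes' c := by
    ext x
    exact act_algebraMap c x

theorem actHom_apply (h : HlamA K L) (x : L) : actHom h x = act (h : LN K L) x := rfl

theorem act_injective [FiniteDimensional K L] {h : LN K L} (hh : ∀ x, act h x = 0) : h = 0 := by
  have hli := linearIndependent_monoidHom L L
  have hinj : Function.Injective (fun n : NT (Gal K L) => ((ev n : Gal K L) : L →* L)) := by
    intro n m hnm
    apply ev_injective
    apply AlgEquiv.ext
    intro x
    exact DFunLike.congr_fun hnm x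
  have hli2 := hli.comp _ hinj
  rw [linearIndependent_iff] at hli2
  have h0 : h.coeff = 0 := by
    apply hli2
    funext x
    rw [Finsupp.linearCombination_apply, Finsupp.sum_apply']
    simp only [Function.comp, Pi.smul_apply, smul_eq_mul, Pi.zero_apply]
    exact hh x
  rwa [MonoidAlgebra.coeff_eq_zero] at h0

theorem twist_smul (g : Gal K L) (c : K) (h : LN K L) : twist g (c • h) = c • twist g h := by
  rw [Algebra.smul_def, Algebra.smul_def, twist_mul, twist_algebraMap]

theorem act_smulK (c : K) (h : LN K L) (x : L) : act (c • h) x = c • act h x := by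
  refine ind (P := fun h => act (c • h) x = c • act h x) h ?_ ?_ ?_
  · simp only [smul_zero, act_zero_left]
  · intro n d
    rw [MonoidAlgebra.smul_single, act_single, act_single, smul_mul_assoc]
  · intro a b ha hb
    rw [smul_add, act_add_left, act_add_left, ha, hb, smul_add]

theorem act_sum {ι : Type*} (s : Finset ι) (f : ι → LN K L) (x : L) :
    act (∑ i ∈ s, f i) x = ∑ i ∈ s, act (f i) x := by
  classical
  induction s using Finset.induction_on with
  | empty => rw [Finset.sum_empty, Finset.sum_empty, act_zero_left]
  | insert a s ha ih => rw [Finset.sum_insert ha, Finset.sum_insert ha, act_add_left, ih]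

theorem twist_sum {ι : Type*} (g : Gal K L) (s : Finset ι) (f : ι → LN K L) :
    twist g (∑ i ∈ s, f i) = ∑ i ∈ s, twist g (f i) := by
  classical
  induction s using Finset.induction_on with
  | empty => rw [Finset.sum_empty, Finset.sum_empty, twist_zero]
  | insert a s ha ih => rw [Finset.sum_insert ha, Finset.sum_insert ha, twist_add, ih]

/-- The main step: an order containing the associated order maps integral elements to integral
elements. -/
theorem key {A : Type*} [CommRing A] [IsDedekindDomain A] [Algebra A K] [IsFractionRing A K]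
    [Algebra A L] [IsScalarTower A K L] [FiniteDimensional K L] [IsGalois K L]
    (hunit : IsUnit ((Fintype.card (Gal K L) : ℕ) : A)) (T : Subring (LN K L))
    (hTH : ∀ y ∈ T, ∀ g, twist g y = y)
    (hT : ∀ y ∈ T, IsIntegral A y)
    (hle : ∀ h : LN K L, (∀ g, twist g h = h) →
      (∀ x, IsIntegral A x → IsIntegral A (act h x)) → h ∈ T)
    (x : LN K L) (hx : x ∈ T) (m : L) (hm : IsIntegral A m) :
    IsIntegral A (act x m) := by
  classical
  apply integral_of_trace_dual (K := K)
  intro b hb
  obtain ⟨v, hv⟩ := hunit
  let u : A := ((v⁻¹ : Aˣ) : A)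
  have hu : u * ((Fintype.card (Gal K L) : ℕ) : A) = 1 := by
    rw [← hv]; exact Units.inv_mul v
  let f0 : LN K L := ∑ g : Gal K L, MonoidAlgebra.single (toN g⁻¹) (m * g b)
  have hf0 : ∀ y, act f0 y = (Algebra.trace K L (b * y)) • m := by
    intro y
    rw [act_sum]
    have : ∀ g ∈ (Finset.univ : Finset (Gal K L)),
        act (MonoidAlgebra.single (toN g⁻¹) (m * g b) : LN K L) y = m * g (b * y) := by
      intro g _
      rw [act_single, ev_toN, inv_inv, map_mul, mul_assoc]
    rw [Finset.sum_congr rfl this, ← Finset.mul_sum, ← trace_eq_sum_automorphisms,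
      Algebra.smul_def, mul_comm]
  let F : LN K L := (algebraMap A K u) • ∑ h : Gal K L, twist h f0
  have hFtw : ∀ g, twist g F = F := by
    intro g
    change twist g ((algebraMap A K u) • ∑ h : Gal K L, twist h f0) = _
    rw [twist_smul, twist_sum]
    congr 1
    simp only [twist_twist]
    exact Fintype.sum_equiv (Equiv.mulLeft g) _ _ (fun h => rfl)
  have hFact : ∀ y, act F y =
      (algebraMap A K u) • ∑ h : Gal K L, h (act f0 (h⁻¹ y)) := by
    intro y
    rw [act_smulK, act_sum]
    congr 1
    apply Finset.sum_congr rfl
    intro h _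
    rw [map_act]
    congr 1
    exact (AlgEquiv.apply_symm_apply h y).symm
  let F' : HlamA K L := ⟨F, hFtw⟩
  let x' : HlamA K L := ⟨x, hTH x hx⟩
  have hint : ∀ (g : Gal K L) (y : L), IsIntegral A y → IsIntegral A (g y) := by
    intro g y hy
    exact hy.map (g.toAlgHom.restrictScalars A)
  have hF'T : F ∈ T := by
    apply hle F hFtw
    intro y hy
    rw [hFact, Algebra.smul_def, ← IsScalarTower.algebraMap_apply A K L]
    apply IsIntegral.mul isIntegral_algebraMap
    apply IsIntegral.sum
    intro h _
    apply hint
    rw [hf0, Algebra.smul_def]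
    exact ((hb _ (hint _ _ hy)).algebraMap).mul hm
  have hy := hT _ (T.mul_mem hx hF'T)
  obtain ⟨q, hq, hq0⟩ := hy
  have hq1 : aeval (actHom (x' * F')) (q.map (algebraMap A K)) = 0 := by
    rw [Polynomial.aeval_algHom_apply]
    have h1 : aeval (x * F) (q.map (algebraMap A K)) = 0 := by
      rw [aeval_map_algebraMap]; exact hq0
    have h2 : aeval (x' * F') (q.map (algebraMap A K)) = 0 := by
      apply Subtype.ext
      have h3 := Polynomial.aeval_algHom_apply (HlamA K L).val (x' * F') (q.map (algebraMap A K))
      exact h3.symm.trans h1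
    rw [h2, map_zero]
  have htr := isIntegral_trace_end hq hq1
  let σ : Gal K L → Module.End K L := fun h => h.toLinearMap
  have hσ1 : ∀ h : Gal K L, σ h⁻¹ * σ h = 1 := by
    intro h
    ext y
    exact AlgEquiv.symm_apply_apply h y
  have hcomm : ∀ h : Gal K L, actHom x' * σ h = σ h * actHom x' := by
    intro h
    ext y
    change act x (h y) = h (act x y)
    rw [map_act, hTH x hx h]
  have hFend : actHom F' = (algebraMap A K u) • ∑ h : Gal K L, σ h * actLin f0 * σ h⁻¹ := by
    ext y
    change act F y = _
    rw [hFact]
    simp only [LinearMap.smul_apply, LinearMap.sum_apply]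
    rfl
  have htr2 : LinearMap.trace K L (actHom (x' * F')) =
      LinearMap.trace K L (actHom x' * actLin f0) := by
    rw [map_mul, hFend, mul_smul_comm, map_smul, Finset.mul_sum, map_sum]
    have : ∀ h ∈ (Finset.univ : Finset (Gal K L)),
        LinearMap.trace K L (actHom x' * (σ h * actLin f0 * σ h⁻¹)) =
          LinearMap.trace K L (actHom x' * actLin f0) := by
      intro h _
      have e1 : actHom x' * (σ h * actLin f0 * σ h⁻¹) =
          σ h * (actHom x' * actLin f0 * σ h⁻¹) := by
        rw [← mul_assoc, ← mul_assoc, hcomm]; simp only [mul_assoc]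
      rw [e1, LinearMap.trace_mul_comm, mul_assoc, hσ1, mul_one]
    rw [Finset.sum_congr rfl this, Finset.sum_const, Finset.card_univ, nsmul_eq_mul, smul_eq_mul,
      ← mul_assoc]
    have h2 := congrArg (algebraMap A K) hu
    rw [map_mul, map_natCast, map_one] at h2
    rw [h2, one_mul]
  have hrank : actHom x' * actLin f0 =
      LinearMap.smulRight ((Algebra.trace K L).comp (LinearMap.mulLeft K b)) (act x m) := by
    ext y
    change act x (act f0 y) = (Algebra.trace K L (b * y)) • act x m
    rw [hf0, act_smul_right]
  rw [htr2, hrank, LinearMap.trace_smulRight] at htr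
  exact htr

/-- The associated order is finitely generated. -/
theorem fg_assoc {A : Type*} [CommRing A] [IsDedekindDomain A] [Algebra A K] [IsFractionRing A K]
    [Algebra A L] [IsScalarTower A K L] [FiniteDimensional K L] [Algebra.IsSeparable K L]
    (S : Submodule A (LN K L)) (hSH : ∀ h ∈ S, ∀ g, twist g h = h)
    (hS : ∀ h ∈ S, ∀ x, IsIntegral A x → IsIntegral A (act h x)) : S.FG := by
  classical
  let OL := integralClosure A L
  have hOL : IsNoetherian A OL := IsIntegralClosure.isNoetherian A K L OL
  obtain ⟨s, b, hb⟩ := FiniteDimensional.exists_is_basis_integral A K L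
  let ψ : S →ₗ[A] (s → OL) :=
    { toFun := fun h i => ⟨act (h : LN K L) (b i), hS _ h.2 _ (hb i)⟩
      map_add' := by
        intro h k
        funext i
        apply Subtype.ext
        exact act_add_left _ _ _
      map_smul' := by
        intro c h
        funext i
        apply Subtype.ext
        change act (c • (h : LN K L)) (b i) = c • act (h : LN K L) (b i)
        rw [← algebraMap_smul K c (h : LN K L), ← algebraMap_smul K c (act (h : LN K L) (b i))]
        exact act_smulK _ _ _ }
  have hinj : Function.Injective ψ := by
    rw [injective_iff_map_eq_zero]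
    intro h hh
    apply Subtype.ext
    apply act_injective
    have h1 : actHom (⟨(h : LN K L), hSH _ h.2⟩ : HlamA K L) = 0 := by
      apply b.ext
      intro i
      have := congrFun hh i
      exact congrArg Subtype.val this
    intro x
    exact DFunLike.congr_fun h1 x
  have hN : IsNoetherian A S := isNoetherian_of_injective ψ hinj
  exact (isNoetherian_submodule.mp hN) _ le_rfl

/-- The associated order spans `H_lambda`. -/
theorem span_assoc {A : Type*} [CommRing A] [IsDedekindDomain A] [Algebra A K]
    [IsFractionRing A K]
    [Algebra A L] [IsScalarTower A K L] [FiniteDimensional K L] [Algebra.IsSeparable K L]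
    (S : Set (LN K L))
    (hS : ∀ h : LN K L, (∀ g, twist g h = h) →
      (∀ x, IsIntegral A x → IsIntegral A (act h x)) → h ∈ S)
    (h : LN K L) (hh : ∀ g, twist g h = h) : h ∈ Submodule.span K S := by
  classical
  let OL := integralClosure A L
  have hOL : IsNoetherian A OL := IsIntegralClosure.isNoetherian A K L OL
  obtain ⟨t, ht⟩ := (isNoetherian_def.mp hOL) ⊤
  obtain ⟨y, hy0, hy⟩ := exists_integral_multiples A K
    (Finset.image (fun z : OL => act h (z : L)) t)
  have hyK : algebraMap A K y ≠ 0 := by
    rwa [Ne, IsFractionRing.to_map_eq_zero_iff]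
  have hmem : (algebraMap A K y) • h ∈ S := by
    apply hS
    · intro g
      rw [twist_smul, hh g]
    intro x hx
    have e2 : act ((algebraMap A K y) • h) x = y • act h x := by
      rw [← algebraMap_smul K y (act h x)]
      exact act_smulK _ _ _
    rw [e2]
    have hx' : (⟨x, hx⟩ : OL) ∈ Submodule.span A (t : Set OL) := by rw [ht]; trivial
    have := Submodule.span_induction (p := fun (z : OL) _ => IsIntegral A
      (y • act h (z : L))) ?_ ?_ ?_ ?_ hx'
    · exact this
    · intro z hz
      exact hy _ (Finset.mem_image_of_mem _ hz)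
    · have : act h ((0 : OL) : L) = 0 := (actLin h).map_zero
      rw [this, smul_zero]
      exact isIntegral_zero
    · intro a c _ _ ha hc
      have : act h ((a + c : OL) : L) = act h a + act h c :=
        act_add_right _ _ _
      rw [this, smul_add]
      exact ha.add hc
    · intro r a _ ha
      have : act h ((r • a : OL) : L) = r • act h (a : L) := by
        rw [← algebraMap_smul K r (act h (a : L)), ← act_smul_right]
        congr 1
        exact (algebraMap_smul K r (a : L)).symm
      rw [this, smul_comm]
      exact ha.smul r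
  have : h = (algebraMap A K y)⁻¹ • ((algebraMap A K y) • h) := by
    rw [smul_smul, inv_mul_cancel₀ hyK, one_smul]
  rw [this]
  exact Submodule.smul_mem _ _ (Submodule.subset_span hmem)

end

/-- The full statement. -/
theorem main (p : ℕ) [Fact p.Prime] (K L : Type*) [Field K] [Field L] [Algebra ℚ_[p] K]
    [FiniteDimensional ℚ_[p] K] [Algebra K L] [FiniteDimensional K L] [IsGalois K L]
    [Algebra ℤ_[p] K] [IsScalarTower ℤ_[p] ℚ_[p] K] [Algebra ℤ_[p] L] [IsScalarTower ℤ_[p] K L]
    (hp : ¬ p ∣ Module.finrank K L) :
    IsMaximalOrder (ringInt p K) (Hlam K L) (assocOrder p K L) := by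
  classical
  have : Algebra.IsSeparable ℚ_[p] K := inferInstance
  let A := integralClosure ℤ_[p] K
  have hD : IsDedekindDomain A := integralClosure.isDedekindDomain ℤ_[p] ℚ_[p] K
  have hF : IsFractionRing A K := integralClosure.isFractionRing_of_finite_extension ℚ_[p] K
  have hiff : ∀ x : L, IsIntegral A x ↔ x ∈ ringInt p L := by
    intro x
    constructor
    · intro hx
      exact isIntegral_trans (R := ℤ_[p]) x hx
    · intro hx
      have hx' : IsIntegral ℤ_[p] x := hx
      exact IsIntegral.tower_top hx'
  have hunit : IsUnit ((Fintype.card (Gal K L) : ℕ) : A) := by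
    have h1 : Fintype.card (Gal K L) = Module.finrank K L := by
      rw [← Nat.card_eq_fintype_card]
      exact IsGalois.card_aut_eq_finrank K L
    rw [h1]
    have h2 : IsUnit ((Module.finrank K L : ℕ) : ℤ_[p]) := by
      rw [PadicInt.isUnit_iff, PadicInt.norm_natCast_eq_one_iff]
      exact (Nat.Prime.coprime_iff_not_dvd (Fact.out)).mpr hp
    have h3 := h2.map (algebraMap ℤ_[p] A)
    rwa [map_natCast] at h3
  have hmem : ∀ h : LN K L, h ∈ assocOrder p K L ↔ (∀ g, twist g h = h) ∧
      ∀ x, IsIntegral A x → IsIntegral A (act h x) := by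
    intro h
    constructor
    · rintro ⟨hh1, hh⟩
      refine ⟨hh1, fun x hx => ?_⟩
      rw [hiff]
      exact hh x ((hiff x).mp hx)
    · rintro ⟨hh1, hh⟩
      refine ⟨hh1, fun x hx => ?_⟩
      rw [← hiff]
      exact hh x ((hiff x).mpr hx)
  have hAmem : ∀ c ∈ ringInt p K, algebraMap K (LN K L) c ∈ assocOrder p K L := by
    intro c hc
    rw [hmem]
    refine ⟨fun g => twist_algebraMap g c, fun x hx => ?_⟩
    rw [act_algebraMap, Algebra.smul_def]
    refine IsIntegral.mul ?_ hx
    exact isIntegral_algebraMap (R := A) (A := L) (x := ⟨c, hc⟩)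
  -- subrings containing `O_K` as `A`-submodules
  let toSub : ∀ T : Subring (LN K L), (∀ c ∈ ringInt p K, algebraMap K (LN K L) c ∈ T) →
      Subalgebra A (LN K L) := fun T hT =>
    { T with
      algebraMap_mem' := fun c => by
        have h1 := hT (c : K) c.2
        have h2 : algebraMap A (LN K L) c = algebraMap K (LN K L) (c : K) := by
          rw [MonoidAlgebra.coe_algebraMap, MonoidAlgebra.coe_algebraMap]
          rfl
        rw [h2]; exact h1 }
  refine ⟨⟨fun h hh => hh.1, hAmem, ?_, ?_⟩, ?_⟩
  · have hfg := fg_assoc (A := A) (Subalgebra.toSubmodule (toSub (assocOrder p K L) hAmem))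
      (fun h hh => ((hmem h).mp hh).1) (fun h hh => ((hmem h).mp hh).2)
    obtain ⟨t, ht⟩ := hfg
    refine ⟨t, ?_, ?_⟩
    · intro a ha
      have : a ∈ Submodule.span A (t : Set (LN K L)) := Submodule.subset_span ha
      rw [ht] at this
      exact this
    · intro s hs
      have : s ∈ Submodule.span A (t : Set (LN K L)) := by rw [ht]; exact hs
      rw [Submodule.mem_span_finset] at this
      obtain ⟨f, _, hf⟩ := this
      refine ⟨fun a => (f a : K), fun a => (f a).2, ?_⟩
      rw [← hf]
      rfl
  · intro h hh
    exact span_assoc (A := A) _ (fun k hk1 hk2 => (hmem k).mpr ⟨hk1, hk2⟩) h hh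
  · intro T hT hle
    apply le_antisymm _ hle
    intro x hx
    rw [hmem]
    obtain ⟨hTH, hTA, ⟨t, htT, htspan⟩, -⟩ := hT
    refine ⟨hTH hx, ?_⟩
    intro m hm
    refine key hunit T (fun y hy => hTH hy) ?_
      (fun h hh1 hh2 => hle ((hmem h).mpr ⟨hh1, hh2⟩)) x hx m hm
    intro y hy
    refine IsIntegral.of_mem_of_fg (toSub T hTA) ?_ y hy
    refine ⟨t, ?_⟩
    apply le_antisymm
    · rw [Submodule.span_le]
      intro a ha
      exact htT a ha
    · intro s hs
      obtain ⟨f, hf, hfs⟩ := htspan s hs
      rw [hfs]
      apply Submodule.sum_mem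
      intro a ha
      have h3 : f a • a = (⟨f a, hf a⟩ : A) • a := rfl
      rw [h3]
      exact Submodule.smul_mem _ _ (Submodule.subset_span ha)

end Pool.Agent.J6H59.HopfOrder
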